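import Mathlib
import Pool.Agent.H55.Sim7
import Pool.Agent.H55.SimBan
import Pool.Agent.H55.SimEx

set_option autoImplicit false

namespace Pool.Agent.Results.MP_c88e0f_an.NotSimilarToContraction

open MeasureTheory Filter Topology
open scoped InnerProductSpace BoundedContinuousFunction CompactlySupported
open ContinuousLinearMap (adjoint)
open Pool.Agent.H55

/-- A Banach limit: a function `L` on the sequences of complex numbers (only its values at bounded
sequences matter) which is linear on the bounded sequences, nonnegative at the nonnegative bounded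
sequences, `1` at the constant sequence `1`, and shift invariant. -/
structure IsBanachLimit (L : (ℕ → ℂ) → ℂ) : Prop where
  add : ∀ (f g : ℕ → ℂ) (M : ℝ), (∀ n, ‖f n‖ ≤ M) → (∀ n, ‖g n‖ ≤ M) →
    L (fun n => f n + g n) = L f + L g
  smul : ∀ (a : ℂ) (f : ℕ → ℂ) (M : ℝ), (∀ n, ‖f n‖ ≤ M) → L (fun n => a * f n) = a * L f
  nonneg : ∀ (f : ℕ → ℝ) (M : ℝ), (∀ n, 0 ≤ f n ∧ f n ≤ M) →
    ∃ r : ℝ, 0 ≤ r ∧ L (fun n => (f n : ℂ)) = r
  one : L (fun _ => 1) = 1
  shift : ∀ (f : ℕ → ℂ) (M : ℝ), (∀ n, ‖f n‖ ≤ M) → L (fun n => f (n + 1)) = L f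

/-- Arc length on the unit circle. -/
noncomputable def arcLength : Measure ℂ :=
  Measure.map (fun t : ℝ => Complex.exp ((t : ℂ) * Complex.I))
    (volume.restrict (Set.Ioc 0 (2 * Real.pi)))

section Defs

variable {H K : Type} [NormedAddCommGroup H] [InnerProductSpace ℂ H]
  [NormedAddCommGroup K] [InnerProductSpace ℂ K]

/-- For a unitary operator `W` of `K` and a bounded operator `X : H → K`: `W`, with the natural map
`X`, is the unitary asymptote of `T` for the Banach limit `L`. Here `⟪X x, X y⟫ =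
L(⟪T^n x, T^n y⟫)`, so that the closure of the range of `X` is the completion of `H` modulo null
vectors; `X T = W X`, so that `W` extends the isometry induced by `T` there; and this
unitary extension is minimal: the vectors `W^(-n) X x` are dense. -/
structure IsUnitaryAsymptote (L : (ℕ → ℂ) → ℂ) (T : H → H) (W : K → K) (X : H → K) : Prop where
  inner_eq : ∀ x y : H, ⟪X x, X y⟫_ℂ = L fun n => ⟪T^[n] x, T^[n] y⟫_ℂ
  intertwines : ∀ x : H, X (T x) = W (X x)
  minimal : Dense {y : K | ∃ (n : ℕ) (x : H), W^[n] y = X x}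

/-- `μ` is the spectral measure of the unitary `W` at `y`: a finite Borel measure carried by the
unit circle with the moments `∫ z^n dμ = ⟪y, W^n y⟫`, `n ≥ 0` (hence, by conjugation, for all
integers `n`). -/
def IsSpectralMeasure (W : K → K) (y : K) (μ : Measure ℂ) : Prop :=
  IsFiniteMeasure μ ∧ μ (Metric.sphere (0 : ℂ) 1)ᶜ = 0 ∧
    ∀ n : ℕ, ∫ z, z ^ n ∂μ = ⟪y, W^[n] y⟫_ℂ

/-- The unitary operator `W` is singular: for every vector `y` the spectral measure at `y` (it
exists, and all measures with this name coincide) is singular to arc length. -/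
def IsSingular (W : K ≃ₗᵢ[ℂ] K) : Prop :=
  ∀ y : K, (∃ μ, IsSpectralMeasure W y μ) ∧ ∀ μ, IsSpectralMeasure W y μ → μ ⟂ₘ arcLength

/-- Two operators are similar: `S T = U S` with `S` bounded and invertible. -/
def Similar (T : H → H) (U : K → K) : Prop :=
  ∃ S : H ≃L[ℂ] K, ∀ h, S (T h) = U (S h)

/-- The powers of `T` have norm at most `C`. -/
def PowersBoundedBy (C : ℝ) (T : H →L[ℂ] H) : Prop := ∀ n : ℕ, ‖T ^ n‖ ≤ C

/-- For every nonzero vector `h` the norms of the vectors `T^n h` are bounded away from zero. -/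
def ClassC1 (T : H → H) : Prop := ∀ h : H, h ≠ 0 → ∃ δ : ℝ, 0 < δ ∧ ∀ n : ℕ, δ ≤ ‖T^[n] h‖

/-- Class `C_11` (for power bounded `T`): `ClassC1` for `T` and for its adjoint `A`. -/
def ClassC11 (T : H → H) : Prop :=
  ClassC1 T ∧ ∃ A : H → H, (∀ x y : H, ⟪A x, y⟫_ℂ = ⟪x, T y⟫_ℂ) ∧ ClassC1 A

/-- `T` has a unitary asymptote for `L`. -/
def HasAsymptote (L : (ℕ → ℂ) → ℂ) (T : H →L[ℂ] H) : Prop :=
  ∃ (K : Type) (_ : NormedAddCommGroup K) (_ : InnerProductSpace ℂ K) (_ : CompleteSpace K)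
    (W : K ≃ₗᵢ[ℂ] K) (X : H →L[ℂ] K), IsUnitaryAsymptote L T W X

/-- Every unitary asymptote of `T` for `L` is singular and not similar to `T`. -/
def AsymptoteSingularNotSimilar (L : (ℕ → ℂ) → ℂ) (T : H →L[ℂ] H) : Prop :=
  ∀ (K : Type) [NormedAddCommGroup K] [InnerProductSpace ℂ K] [CompleteSpace K]
    (W : K ≃ₗᵢ[ℂ] K) (X : H →L[ℂ] K), IsUnitaryAsymptote L T W X → IsSingular W ∧ ¬ Similar T W

/-- `T` is similar to some contraction on a Hilbert space. -/
def SimilarToContraction (T : H →L[ℂ] H) : Prop :=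
  ∃ (K : Type) (_ : NormedAddCommGroup K) (_ : InnerProductSpace ℂ K) (_ : CompleteSpace K)
    (C : K →L[ℂ] K), ‖C‖ ≤ 1 ∧ Similar T C

end Defs

/-! ### Auxiliary versions of the definitions -/

/-- Banach limits as continuous functionals -/
private structure IsBL (L : (ℕ →ᵇ ℂ) →L[ℂ] ℂ) : Prop where
  nonneg : ∀ f : ℕ →ᵇ ℂ, (∀ n, 0 ≤ (f n).re ∧ (f n).im = 0) → 0 ≤ (L f).re ∧ (L f).im = 0
  one : L (BoundedContinuousFunction.const ℕ (1 : ℂ)) = 1
  shift : ∀ f g : ℕ →ᵇ ℂ, (∀ n, g n = f (n + 1)) → L g = L f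

/-- unitary asymptotes for such functionals -/
private structure IsUA {H K : Type} [NormedAddCommGroup H] [InnerProductSpace ℂ H]
    [CompleteSpace H] [NormedAddCommGroup K] [InnerProductSpace ℂ K] [CompleteSpace K]
    (L : (ℕ →ᵇ ℂ) →L[ℂ] ℂ) (T : H →L[ℂ] H) (W : K →L[ℂ] K) (X : H →L[ℂ] K) : Prop where
  inner_eq : ∀ x y : H, ∃ f : ℕ →ᵇ ℂ, (∀ n, f n = ⟪(T ^ n) x, (T ^ n) y⟫_ℂ) ∧ ⟪X x, X y⟫_ℂ = L f
  intertwines : X.comp T = W.comp X
  unitary : W ∈ unitary (K →L[ℂ] K)
  minimal : ∀ M : Submodule ℂ K, IsClosed (M : Set K) → (∀ x, X x ∈ M) → (∀ m ∈ M, W m ∈ M) →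
    (∀ m ∈ M, adjoint W m ∈ M) → M = ⊤

/-- spectral measures -/
private def IsSM {K : Type} [NormedAddCommGroup K] [InnerProductSpace ℂ K] [CompleteSpace K]
    (W : K →L[ℂ] K) (y : K) (μ : Measure ℂ) : Prop :=
  IsFiniteMeasure μ ∧ μ (Metric.sphere (0 : ℂ) 1)ᶜ = 0 ∧
    ∀ n : ℕ, ∫ z, z ^ n ∂μ = ⟪y, (W ^ n) y⟫_ℂ

section Spectral

variable {K' : Type} [NormedAddCommGroup K'] [InnerProductSpace ℂ K'] [CompleteSpace K']

/-- complexification of a real function -/
private noncomputable def emb {X : Type} [TopologicalSpace X] (f : C_c(X, ℝ)) : C(X, ℂ) :=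
  ⟨fun x => (f x : ℂ), Complex.continuous_ofReal.comp f.continuous⟩

private lemma emb_apply {X : Type} [TopologicalSpace X] (f : C_c(X, ℝ)) (x : X) :
    emb f x = (f x : ℂ) := rfl

private lemma selfadj_inner {A : K' →L[ℂ] K'} (hA : star A = A) (y : K') :
    ((⟪y, A y⟫_ℂ).re : ℂ) = ⟪y, A y⟫_ℂ := by
  have h1 : (starRingEnd ℂ) ⟪y, A y⟫_ℂ = ⟪y, A y⟫_ℂ := by
    rw [inner_conj_symm]
    nth_rewrite 2 [← hA]
    rw [ContinuousLinearMap.star_eq_adjoint, ContinuousLinearMap.adjoint_inner_right]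
  exact (Complex.conj_eq_iff_re.mp h1)

/-- the spectral theorem for one vector: spectral measures of unitary operators exist -/
private lemma exists_spectral (W : K' →L[ℂ] K') (hW : W ∈ unitary (K' →L[ℂ] K')) (y : K') :
    ∃ μ : Measure ℂ, IsSM W y μ := by
  have hn : IsStarNormal W := isStarNormal_of_mem_unitary hW
  set Φ : C(spectrum ℂ W, ℂ) →⋆ₐ[ℂ] (K' →L[ℂ] K') := cfcHom hn with hΦ
  have hid : Φ ((ContinuousMap.id ℂ).restrict (spectrum ℂ W)) = W := cfcHom_id hn
  have hcomp : CompactSpace (spectrum ℂ W) := by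
    exact isCompact_iff_compactSpace.mp (spectrum.isCompact W)
  have hstar : ∀ f : C_c(spectrum ℂ W, ℝ), star (Φ (emb f)) = Φ (emb f) := by
    intro f
    rw [← map_star]
    congr 1
    ext x
    rw [ContinuousMap.star_apply, emb_apply]
    exact Complex.conj_ofReal _
  let Λ₀ : C_c(spectrum ℂ W, ℝ) →ₗ[ℝ] ℝ :=
    { toFun := fun f => (⟪y, Φ (emb f) y⟫_ℂ).re
      map_add' := by
        intro f g
        have h1 : emb (f + g) = emb f + emb g := by
          ext x
          simp [emb_apply]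
        rw [h1, map_add, add_apply, inner_add_right, Complex.add_re]
      map_smul' := by
        intro a f
        have h1 : emb (a • f) = (a : ℂ) • emb f := by
          ext x
          simp [emb_apply]
        rw [h1, map_smul, smul_apply, inner_smul_right]
        simp }
  have hpos : ∀ f : C_c(spectrum ℂ W, ℝ), 0 ≤ f → 0 ≤ Λ₀ f := by
    intro f hf
    show 0 ≤ (⟪y, Φ (emb f) y⟫_ℂ).re
    set g : C(spectrum ℂ W, ℂ) := ⟨fun x => ((Real.sqrt (f x) : ℝ) : ℂ),
      Complex.continuous_ofReal.comp (Real.continuous_sqrt.comp f.continuous)⟩ with hg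
    have h1 : emb f = star g * g := by
      ext x
      rw [ContinuousMap.mul_apply, ContinuousMap.star_apply, emb_apply]
      show (f x : ℂ) = (starRingEnd ℂ) ((Real.sqrt (f x) : ℝ) : ℂ) * ((Real.sqrt (f x) : ℝ) : ℂ)
      rw [Complex.conj_ofReal, ← Complex.ofReal_mul, Real.mul_self_sqrt (hf x)]
    rw [h1, map_mul, map_star, mul_apply_eq_comp, ContinuousLinearMap.star_eq_adjoint,
      ContinuousLinearMap.adjoint_inner_right]
    exact inner_self_nonneg (𝕜 := ℂ)
  let Λ : C_c(spectrum ℂ W, ℝ) →ₚ[ℝ] ℝ := PositiveLinearMap.mk₀ Λ₀ hpos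
  set ρ := RealRMK.rieszMeasure Λ with hρ
  have hint : ∀ f : C_c(spectrum ℂ W, ℝ), ∫ x, f x ∂ρ = (⟪y, Φ (emb f) y⟫_ℂ).re :=
    fun f => RealRMK.integral_rieszMeasure Λ f
  have hfinρ : IsFiniteMeasure ρ := inferInstance
  -- integrals of complex functions
  have key : ∀ g : C(spectrum ℂ W, ℂ), ∫ x, g x ∂ρ = ⟪y, Φ g y⟫_ℂ := by
    intro g
    set g1 : C_c(spectrum ℂ W, ℝ) := CompactlySupportedContinuousMap.continuousMapEquiv
      ⟨fun x => (g x).re, Complex.continuous_re.comp g.continuous⟩ with hg1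
    set g2 : C_c(spectrum ℂ W, ℝ) := CompactlySupportedContinuousMap.continuousMapEquiv
      ⟨fun x => (g x).im, Complex.continuous_im.comp g.continuous⟩ with hg2
    have h1 : g = emb g1 + Complex.I • emb g2 := by
      ext x
      show g x = (((g x).re : ℝ) : ℂ) + Complex.I * (((g x).im : ℝ) : ℂ)
      rw [mul_comm]
      exact (Complex.re_add_im _).symm
    have i1 : Integrable (fun x => (g x).re) ρ :=
      (Complex.continuous_re.comp g.continuous).integrable_of_hasCompactSupport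
        (HasCompactSupport.of_compactSpace _)
    have i2 : Integrable (fun x => (g x).im) ρ :=
      (Complex.continuous_im.comp g.continuous).integrable_of_hasCompactSupport
        (HasCompactSupport.of_compactSpace _)
    have h2 : ∫ x, g x ∂ρ = ((∫ x, (g x).re ∂ρ : ℝ) : ℂ) + Complex.I * ((∫ x, (g x).im ∂ρ : ℝ) : ℂ) := by
      rw [← integral_complex_ofReal, ← integral_complex_ofReal, ← integral_const_mul,
        ← integral_add i1.ofReal (i2.ofReal.const_mul _)]
      apply integral_congr_ae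
      refine Eventually.of_forall fun x => ?_
      show g x = (((g x).re : ℝ) : ℂ) + Complex.I * (((g x).im : ℝ) : ℂ)
      rw [mul_comm]
      exact (Complex.re_add_im _).symm
    have h3 : ∫ x, (g x).re ∂ρ = (⟪y, Φ (emb g1) y⟫_ℂ).re := hint g1
    have h4 : ∫ x, (g x).im ∂ρ = (⟪y, Φ (emb g2) y⟫_ℂ).re := hint g2
    rw [h2, h3, h4, selfadj_inner (hstar g1), selfadj_inner (hstar g2)]
    have h5 : Φ g = Φ (emb g1) + Complex.I • Φ (emb g2) := by
      rw [← map_smul, ← map_add, ← h1]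
    rw [h5, add_apply, smul_apply, inner_add_right, inner_smul_right]
  refine ⟨Measure.map Subtype.val ρ, inferInstance, ?_, ?_⟩
  · rw [Measure.map_apply measurable_subtype_coe (Metric.isClosed_sphere.measurableSet.compl)]
    have : (Subtype.val : spectrum ℂ W → ℂ) ⁻¹' (Metric.sphere (0 : ℂ) 1)ᶜ = ∅ := by
      rw [Set.eq_empty_iff_forall_notMem]
      intro x hx
      exact hx (spectrum.subset_circle_of_unitary (𝕜 := ℂ) hW x.2)
    rw [this, measure_empty]
  · intro n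
    rw [integral_map measurable_subtype_coe.aemeasurable (by
      exact (continuous_pow n).aestronglyMeasurable)]
    have h1 := key (((ContinuousMap.id ℂ).restrict (spectrum ℂ W)) ^ n)
    rw [map_pow, hid] at h1
    rw [← h1]
    rfl

end Spectral

section Contraction

variable {K' : Type} [NormedAddCommGroup K'] [InnerProductSpace ℂ K'] [CompleteSpace K']

private lemma pow_succ_apply {E : Type} [NormedAddCommGroup E] [NormedSpace ℂ E] (A : E →L[ℂ] E)
    (n : ℕ) (x : E) : (A ^ (n + 1)) x = A ((A ^ n) x) := by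
  rw [pow_succ', mul_apply_eq_comp]

private lemma defect_bound (C : K' →L[ℂ] K') (hC : ‖C‖ ≤ 1) (x : K') :
    ‖x - adjoint C (C x)‖ ^ 2 ≤ ‖x‖ ^ 2 - ‖C x‖ ^ 2 := by
  have h1 : ‖adjoint C (C x)‖ ≤ ‖C x‖ := by
    have h2 := (adjoint C).le_opNorm (C x)
    rw [LinearIsometryEquiv.norm_map] at h2
    refine h2.trans ?_
    nlinarith [norm_nonneg (C x)]
  have h3 : RCLike.re ⟪x, adjoint C (C x)⟫_ℂ = ‖C x‖ ^ 2 := by
    rw [ContinuousLinearMap.adjoint_inner_right, inner_self_eq_norm_sq]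
  rw [@norm_sub_sq ℂ, h3]
  nlinarith [norm_nonneg (adjoint C (C x)), norm_nonneg (C x)]

private lemma defect_tendsto (C : K' →L[ℂ] K') (hC : ‖C‖ ≤ 1) (x : K') :
    Tendsto (fun n => ‖(C ^ n) x - adjoint C (C ((C ^ n) x))‖) atTop (𝓝 0) := by
  have hle : ∀ y : K', ‖C y‖ ≤ ‖y‖ := by
    intro y
    refine (C.le_opNorm y).trans ?_
    nlinarith [norm_nonneg y]
  have hanti : Antitone (fun n => ‖(C ^ n) x‖ ^ 2) := by
    refine antitone_nat_of_succ_le fun n => ?_
    rw [pow_succ_apply]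
    have := hle ((C ^ n) x)
    gcongr
  have hconv := tendsto_atTop_ciInf hanti ⟨0, by rintro _ ⟨n, rfl⟩; positivity⟩
  have hdiff := hconv.sub (hconv.comp (tendsto_add_atTop_nat 1))
  rw [sub_self] at hdiff
  have h1 : Tendsto (fun n => ‖(C ^ n) x - adjoint C (C ((C ^ n) x))‖ ^ 2) atTop (𝓝 0) := by
    refine squeeze_zero (fun n => by positivity) (fun n => ?_) hdiff
    simp only [Function.comp_apply]
    rw [pow_succ_apply]
    exact defect_bound C hC _
  have h2 := h1.sqrt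
  rw [Real.sqrt_zero] at h2
  refine h2.congr fun n => ?_
  rw [Real.sqrt_sq (norm_nonneg _)]

end Contraction

section Fam

variable {K : ℕ → Type} [∀ i, NormedAddCommGroup (K i)] [∀ i, InnerProductSpace ℂ (K i)]
  [∀ i, CompleteSpace (K i)] {c s : ℕ → ℝ} (R : ∀ i, RSys (K i) (c i) (s i))

private lemma norm_YY_aux (i : ℕ) : ‖((s i : ℝ) : ℂ) • (R i).Xi‖ ≤ 1 := by
  refine ContinuousLinearMap.opNorm_le_bound _ (by norm_num) fun x => ?_
  rw [smul_apply, norm_smul, Complex.norm_real, Real.norm_eq_abs, abs_of_pos (R i).hs, one_mul]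
  have h1 := (R i).norm_X_ge ((R i).Xi x)
  have h2 : (R i).X ((R i).Xi x) = x := by
    rw [← mul_apply_eq_comp, (R i).X_Xi, one_apply_eq_self]
  rwa [h2] at h1

/-- the intertwiner from the unitary to `T` -/
private noncomputable def YY : lp K 2 →L[ℂ] lp K 2 :=
  lp.mapCLM 2 (fun i => ((s i : ℝ) : ℂ) • (R i).Xi) (by norm_num : (0 : ℝ) ≤ 1) (norm_YY_aux R)

private lemma TT_YY (x : lp K 2) : TT R (YY R x) = YY R (WW R x) := by
  ext i
  show (R i).T (((s i : ℝ) : ℂ) • (R i).Xi (x i)) = ((s i : ℝ) : ℂ) • (R i).Xi ((R i).V (x i))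
  rw [map_smul]
  congr 1
  show (R i).Xi ((R i).V ((R i).X ((R i).Xi (x i)))) = _
  have h2 : (R i).X ((R i).Xi (x i)) = x i := by
    rw [← mul_apply_eq_comp, (R i).X_Xi, one_apply_eq_self]
  rw [h2]

omit [∀ i, CompleteSpace (K i)] in
private lemma dense_of_single (A : ∀ i, K i →L[ℂ] K i) {C : ℝ} (hC : 0 ≤ C) (h : ∀ i, ‖A i‖ ≤ C)
    (hA : ∀ i, Function.Surjective (A i)) : DenseRange (lp.mapCLM 2 A hC h) := by
  have h : (LinearMap.range (lp.mapCLM 2 A hC h : lp K 2 →ₗ[ℂ] lp K 2)).topologicalClosure = ⊤ := by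
    apply eq_top_of_single _ (Submodule.isClosed_topologicalClosure _) (fun _ => ⊤)
    · intro i
      rw [eq_top_iff]
      exact Submodule.le_topologicalClosure _
    · intro i x _
      apply Submodule.le_topologicalClosure
      obtain ⟨z, hz⟩ := hA i x
      refine ⟨lp.single 2 i z, ?_⟩
      have h1 := mapCLM_single A hC h i z
      rw [hz] at h1
      exact h1
  have h2 := congrArg (fun G : Submodule ℂ (lp K 2) => (G : Set (lp K 2))) h
  simp only [Submodule.topologicalClosure_coe, Submodule.top_coe] at h2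
  rw [DenseRange, dense_iff_closure_eq]
  exact h2

private lemma YY_dense : DenseRange (YY R) := by
  apply dense_of_single
  intro i x
  refine ⟨(((s i)⁻¹ : ℝ) : ℂ) • (R i).X x, ?_⟩
  rw [smul_apply, map_smul]
  have h2 : (R i).Xi ((R i).X x) = x := by
    rw [← mul_apply_eq_comp, (R i).Xi_X, one_apply_eq_self]
  rw [h2, smul_smul]
  have h3 : (((s i : ℝ) : ℂ) * (((s i)⁻¹ : ℝ) : ℂ)) = 1 := by
    rw [← Complex.ofReal_mul, mul_inv_cancel₀ (R i).hs.ne', Complex.ofReal_one]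
  rw [h3, one_smul]

private lemma DD_dense : DenseRange (DD R) := by
  apply dense_of_single
  intro i x
  refine ⟨(((c i * s i)⁻¹ : ℝ) : ℂ) • x, ?_⟩
  rw [smul_apply, one_apply_eq_self, smul_smul]
  have h3 : (((c i * s i : ℝ) : ℂ) * (((c i * s i)⁻¹ : ℝ) : ℂ)) = 1 := by
    rw [← Complex.ofReal_mul, mul_inv_cancel₀ (cs_pos R i).ne', Complex.ofReal_one]
  rw [h3, one_smul]

/-- `T` is not bounded below -/
private lemma not_bdd_below (hs : Tendsto s atTop (𝓝 0)) (C : ℝ)
    (h1 : ∀ v : lp K 2, ‖v‖ ≤ C * ‖TT R v‖) : False := by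
  have h2 : ∀ i, 1 ≤ C * s i := by
    intro i
    have h3 := h1 (lp.single 2 i ((R i).E 0 (-1)))
    have h4 : TT R (lp.single 2 i ((R i).E 0 (-1))) = lp.single 2 i ((R i).T ((R i).E 0 (-1))) :=
      mapCLM_single _ _ _ i _
    rw [h4, norm_single, norm_single, (R i).norm_E, (R i).T_low, norm_smul, (R i).norm_E, mul_one,
      Complex.norm_real, Real.norm_eq_abs, abs_of_pos (R i).hs] at h3
    exact h3
  have h3 := ge_of_tendsto' (hs.const_mul C) h2
  rw [mul_zero] at h3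
  linarith

/-- `T` is not similar to a contraction -/
private lemma no_contraction (hs : Tendsto s atTop (𝓝 0)) {K' : Type} [NormedAddCommGroup K']
    [InnerProductSpace ℂ K'] [CompleteSpace K'] (C : K' →L[ℂ] K') (hC : ‖C‖ ≤ 1) :
    ¬ Similar (TT R) C := by
  rintro ⟨S, hS⟩
  set Y : lp K 2 →L[ℂ] K' := (S : lp K 2 →L[ℂ] K').comp (YY R) with hY
  have hYa : ∀ x, Y x = S (YY R x) := fun x => rfl
  have hYW : ∀ x, C (Y x) = Y (WW R x) := by
    intro x
    rw [hYa, hYa, ← hS, TT_YY]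
  have hYWn : ∀ n x, (C ^ n) (Y x) = Y ((WW R ^ n) x) := by
    intro n x
    induction n with
    | zero => simp
    | succ n ih => rw [pow_succ_apply, ih, hYW, pow_succ_apply]
  have hYd : DenseRange Y := S.surjective.denseRange.comp (YY_dense R) S.continuous
  set E : K' →L[ℂ] K' := 1 - (adjoint C).comp C with hE
  have hEa : ∀ x, E x = x - adjoint C (C x) := fun x => rfl
  -- the averages
  have hzero : ∀ x, E (Y (DD R x)) = 0 := by
    intro x
    have h1 : Tendsto (fun J => E (Y (AA R J x))) atTop (𝓝 (E (Y (DD R x)))) :=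
      ((E.comp Y).continuous.tendsto _).comp (AA_tendsto R x)
    have h2 : Tendsto (fun J => E (Y (AA R J x))) atTop (𝓝 0) := by
      have h3 := defect_tendsto C hC (Y x)
      have hMn : Tendsto Mn atTop atTop := by
        have := Mn_injective.nat_tendsto_atTop
        exact this
      have h4 := (h3.comp hMn).cesaro
      refine squeeze_zero_norm (fun J => ?_) h4
      rw [AA_apply, map_smul, map_smul, norm_smul, norm_inv, RCLike.norm_natCast, map_sum, map_sum]
      refine mul_le_mul_of_nonneg_left ?_ (by positivity)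
      refine (norm_sum_le _ _).trans (Finset.sum_le_sum fun j _ => ?_)
      rw [← hYWn, hEa]
      exact le_rfl
    exact tendsto_nhds_unique h1 h2
  have hEz : ∀ x, E x = 0 := by
    have hd : DenseRange (fun x => Y (DD R x)) := hYd.comp (DD_dense R) Y.continuous
    intro x
    have h5 : (E : K' → K') = fun _ => 0 := by
      apply hd.equalizer E.continuous continuous_const
      funext x
      exact hzero x
    exact congrFun h5 x
  have hCn : ∀ x, ‖C x‖ = ‖x‖ := by
    intro x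
    have h1 : adjoint C (C x) = x := by
      have := hEz x
      rw [hEa, sub_eq_zero] at this
      exact this.symm
    have h2 : ⟪C x, C x⟫_ℂ = ⟪x, x⟫_ℂ := by
      rw [← ContinuousLinearMap.adjoint_inner_right, h1]
    rw [inner_self_eq_norm_sq_to_K, inner_self_eq_norm_sq_to_K] at h2
    have h3 : ‖C x‖ ^ 2 = ‖x‖ ^ 2 := by exact_mod_cast h2
    exact (sq_eq_sq₀ (norm_nonneg _) (norm_nonneg _)).mp h3
  apply not_bdd_below R hs (‖(S.symm : K' →L[ℂ] lp K 2)‖ * ‖(S : lp K 2 →L[ℂ] K')‖)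
  intro v
  calc ‖v‖ = ‖(S.symm : K' →L[ℂ] lp K 2) (S v)‖ := by
        rw [ContinuousLinearEquiv.coe_coe, S.symm_apply_apply]
    _ ≤ ‖(S.symm : K' →L[ℂ] lp K 2)‖ * ‖S v‖ := ContinuousLinearMap.le_opNorm _ _
    _ = ‖(S.symm : K' →L[ℂ] lp K 2)‖ * ‖C (S v)‖ := by rw [hCn]
    _ = ‖(S.symm : K' →L[ℂ] lp K 2)‖ * ‖(S : lp K 2 →L[ℂ] K') (TT R v)‖ := by
        rw [← hS, ContinuousLinearEquiv.coe_coe]
    _ ≤ ‖(S.symm : K' →L[ℂ] lp K 2)‖ * (‖(S : lp K 2 →L[ℂ] K')‖ * ‖TT R v‖) := by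
        gcongr
        exact ContinuousLinearMap.le_opNorm _ _
    _ = _ := by ring

/-- lower bound by a window argument -/
private lemma norm_XX_le (x : lp K 2) (n : ℕ) : ‖XX R x‖ ≤ ‖(TT R ^ n) x‖ := by
  apply norm_le_of_apply
  intro i
  rw [XX_apply, TT_pow_apply]
  exact (R i).norm_T_pow_ge n _

/-- values of a Banach limit on real sequences with bounds -/
private lemma limit_bounds {L : (ℕ →ᵇ ℂ) →L[ℂ] ℂ} (hL : IsBL L) (f : ℕ →ᵇ ℂ) (a b : ℝ)
    (hf : ∀ n, ∃ t : ℝ, f n = t ∧ a ≤ t ∧ t ≤ b) : a ≤ (L f).re ∧ (L f).re ≤ b := by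
  have h1 := hL.nonneg (f - (a : ℂ) • BoundedContinuousFunction.const ℕ (1 : ℂ)) (by
    intro n
    obtain ⟨t, ht, h2, h3⟩ := hf n
    simp only [BoundedContinuousFunction.coe_sub, BoundedContinuousFunction.coe_smul,
      Pi.sub_apply, BoundedContinuousFunction.const_apply, smul_eq_mul, mul_one]
    rw [ht, ← Complex.ofReal_sub, Complex.ofReal_re, Complex.ofReal_im]
    exact ⟨by linarith, rfl⟩)
  have h2 := hL.nonneg ((b : ℂ) • BoundedContinuousFunction.const ℕ (1 : ℂ) - f) (by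
    intro n
    obtain ⟨t, ht, h2, h3⟩ := hf n
    simp only [BoundedContinuousFunction.coe_sub, BoundedContinuousFunction.coe_smul,
      Pi.sub_apply, BoundedContinuousFunction.const_apply, smul_eq_mul, mul_one]
    rw [ht, ← Complex.ofReal_sub, Complex.ofReal_re, Complex.ofReal_im]
    exact ⟨by linarith, rfl⟩)
  rw [map_sub, map_smul, hL.one, smul_eq_mul, mul_one, Complex.sub_re, Complex.ofReal_re] at h1 h2
  exact ⟨by linarith [h1.1], by linarith [h2.1]⟩

variable {K' : Type} [NormedAddCommGroup K'] [InnerProductSpace ℂ K'] [CompleteSpace K']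

private lemma asym_norm {L : (ℕ →ᵇ ℂ) →L[ℂ] ℂ} (hL : IsBL L) {W : K' →L[ℂ] K'}
    {X : lp K 2 →L[ℂ] K'} (h : IsUA L (TT R) W X) (x : lp K 2) (a b : ℝ)
    (hx : ∀ n, a ≤ ‖(TT R ^ n) x‖ ^ 2 ∧ ‖(TT R ^ n) x‖ ^ 2 ≤ b) :
    a ≤ ‖X x‖ ^ 2 ∧ ‖X x‖ ^ 2 ≤ b := by
  obtain ⟨f, hf, hXf⟩ := h.inner_eq x x
  have h1 := limit_bounds hL f a b (by
    intro n
    refine ⟨‖(TT R ^ n) x‖ ^ 2, ?_, hx n⟩
    rw [hf n, inner_self_eq_norm_sq_to_K]
    push_cast
    rfl)
  have h2 : (L f).re = ‖X x‖ ^ 2 := by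
    rw [← hXf]
    exact inner_self_eq_norm_sq (𝕜 := ℂ) (X x)
  rwa [h2] at h1

private lemma unitary_norm {W : K' →L[ℂ] K'} (hW : W ∈ unitary (K' →L[ℂ] K')) (y : K') :
    ‖W y‖ = ‖y‖ := by
  have h1 : ⟪W y, W y⟫_ℂ = ⟪y, y⟫_ℂ := by
    rw [← ContinuousLinearMap.adjoint_inner_right, ← ContinuousLinearMap.star_eq_adjoint]
    have h2 : star W * W = 1 := (Unitary.mem_iff.mp hW).1
    have h3 : (star W) (W y) = y := by
      show (star W * W) y = y
      rw [h2]; rfl
    rw [h3]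
  rw [inner_self_eq_norm_sq_to_K, inner_self_eq_norm_sq_to_K] at h1
  have h3 : ‖W y‖ ^ 2 = ‖y‖ ^ 2 := by exact_mod_cast h1
  exact (sq_eq_sq₀ (norm_nonneg _) (norm_nonneg _)).mp h3

private lemma asym_lower {L : (ℕ →ᵇ ℂ) →L[ℂ] ℂ} (hL : IsBL L) {W : K' →L[ℂ] K'}
    {X : lp K 2 →L[ℂ] K'} (h : IsUA L (TT R) W X) (x : lp K 2) :
    ‖XX R x‖ ≤ ‖X x‖ := by
  have h1 := (asym_norm R hL h x (‖XX R x‖ ^ 2) ((2 * ‖x‖) ^ 2) (fun n =>
    ⟨by have := norm_XX_le R x n; gcongr, by have := norm_TT_pow R n x; gcongr⟩)).1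
  exact (sq_le_sq₀ (norm_nonneg _) (norm_nonneg _)).mp h1

private lemma asym_upper0 {L : (ℕ →ᵇ ℂ) →L[ℂ] ℂ} (hL : IsBL L) {W : K' →L[ℂ] K'}
    {X : lp K 2 →L[ℂ] K'} (h : IsUA L (TT R) W X) (x : lp K 2) :
    ‖X x‖ ≤ 2 * ‖x‖ := by
  have h1 := (asym_norm R hL h x (‖XX R x‖ ^ 2) ((2 * ‖x‖) ^ 2) (fun n =>
    ⟨by have := norm_XX_le R x n; gcongr, by have := norm_TT_pow R n x; gcongr⟩)).2
  exact (sq_le_sq₀ (norm_nonneg _) (by positivity)).mp h1

private lemma asym_pow {L : (ℕ →ᵇ ℂ) →L[ℂ] ℂ} {W : K' →L[ℂ] K'}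
    {X : lp K 2 →L[ℂ] K'} (h : IsUA L (TT R) W X) (n : ℕ) (x : lp K 2) :
    ‖X ((TT R ^ n) x)‖ = ‖X x‖ := by
  induction n with
  | zero => simp
  | succ n ih =>
    rw [pow_succ_apply, ← ih]
    have h1 : X (TT R ((TT R ^ n) x)) = W (X ((TT R ^ n) x)) :=
      congrArg (fun A : lp K 2 →L[ℂ] K' => A ((TT R ^ n) x)) h.intertwines
    rw [h1, unitary_norm h.unitary]

private lemma asym_upper {L : (ℕ →ᵇ ℂ) →L[ℂ] ℂ} (hL : IsBL L) {W : K' →L[ℂ] K'}
    {X : lp K 2 →L[ℂ] K'} (h : IsUA L (TT R) W X) (x : lp K 2) :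
    ‖X x‖ ≤ 2 * ‖XX R x‖ := by
  have h1 : ‖X x‖ ^ 2 ≤ (2 * ‖XX R x‖) ^ 2 := by
    refine le_of_forall_pos_le_add fun ε hε => ?_
    obtain ⟨l, hl⟩ := (window_norm R x (ε := ε / 4) (by positivity)).exists
    have h2 := hl (wdw l) le_rfl (Nat.le_add_right _ _)
    have h3 : ‖X x‖ ≤ 2 * ‖(TT R ^ (wdw l)) x‖ := by
      rw [← asym_pow R h (wdw l) x]
      exact asym_upper0 R hL h _
    have h4 : ‖X x‖ ^ 2 ≤ (2 * ‖(TT R ^ (wdw l)) x‖) ^ 2 := by gcongr
    rw [abs_le] at h2
    nlinarith [h2.2]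
  exact (sq_le_sq₀ (norm_nonneg _) (by positivity)).mp h1

/-- every unitary asymptote is a similar copy of `W` -/
private lemma asym_factor {L : (ℕ →ᵇ ℂ) →L[ℂ] ℂ} (hL : IsBL L) {W : K' →L[ℂ] K'}
    {X : lp K 2 →L[ℂ] K'} (h : IsUA L (TT R) W X) :
    ∃ Z : lp K 2 →L[ℂ] K', (∀ k, ‖Z k‖ ≤ 2 * ‖k‖) ∧ (∀ k, W (Z k) = Z (WW R k)) ∧
      Function.Surjective Z := by
  have hup := asym_upper R hL h
  set Z : lp K 2 →L[ℂ] K' :=
    (X : lp K 2 →ₗ[ℂ] K').extendOfNorm (XX R : lp K 2 →ₗ[ℂ] lp K 2) with hZ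
  have hZX : ∀ x, Z (XX R x) = X x := fun x =>
    LinearMap.extendOfNorm_eq (XX_dense R) ⟨2, hup⟩ x
  have hZn : ∀ k, ‖Z k‖ ≤ 2 * ‖k‖ := fun k =>
    LinearMap.norm_extendOfNorm_apply_le (XX_dense R) 2 hup k
  have hZl : ∀ k, ‖k‖ ≤ ‖Z k‖ := by
    intro k
    have hcl : IsClosed {k : lp K 2 | ‖k‖ ≤ ‖Z k‖} :=
      isClosed_le continuous_norm (Z.continuous.norm)
    have h1 : ∀ k, k ∈ {k : lp K 2 | ‖k‖ ≤ ‖Z k‖} := by
      intro k
      refine (XX_dense R).induction_on k hcl ?_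
      intro x
      show ‖XX R x‖ ≤ ‖Z (XX R x)‖
      rw [hZX]
      exact asym_lower R hL h x
    exact h1 k
  have hZW : ∀ k, W (Z k) = Z (WW R k) := by
    have h1 : (fun k => W (Z k)) = fun k => Z (WW R k) := by
      apply (XX_dense R).equalizer (W.continuous.comp Z.continuous)
        (Z.continuous.comp (WW R).continuous)
      funext x
      show W (Z (XX R x)) = Z (WW R (XX R x))
      have h2 : WW R (XX R x) = XX R (TT R x) :=
        (congrArg (fun A : lp K 2 →L[ℂ] lp K 2 => A x) (XX_comp R)).symm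
      have h3 : X (TT R x) = W (X x) :=
        congrArg (fun A : lp K 2 →L[ℂ] K' => A x) h.intertwines
      rw [h2, hZX, hZX, h3]
    intro k
    exact congrFun h1 k
  refine ⟨Z, hZn, hZW, ?_⟩
  have hanti : AntilipschitzWith 1 Z := by
    apply AddMonoidHomClass.antilipschitz_of_bound
    intro k
    rw [NNReal.coe_one, one_mul]
    exact hZl k
  have hclosed : IsClosed ((LinearMap.range (Z : lp K 2 →ₗ[ℂ] K') : Submodule ℂ K') : Set K') := by
    have h1 := hanti.isClosed_range Z.uniformContinuous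
    rw [LinearMap.coe_range]
    exact h1
  have htop := h.minimal (LinearMap.range (Z : lp K 2 →ₗ[ℂ] K')) hclosed
    (fun x => ⟨XX R x, hZX x⟩)
    (by
      rintro _ ⟨k, rfl⟩
      exact ⟨WW R k, (hZW k).symm⟩)
    (by
      rintro _ ⟨k, rfl⟩
      refine ⟨adjoint (WW R) k, ?_⟩
      have h1 : WW R (adjoint (WW R) k) = k := by
        have h2 : WW R * star (WW R) = 1 := (Unitary.mem_iff.mp (WW_unitary R)).2
        rw [← ContinuousLinearMap.star_eq_adjoint]
        show (WW R * star (WW R)) k = k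
        rw [h2]; rfl
      have h3 : Z k = W (Z (adjoint (WW R) k)) := by rw [hZW, h1]
      have h4 : star W * W = 1 := (Unitary.mem_iff.mp h.unitary).1
      show Z (adjoint (WW R) k) = adjoint W (Z k)
      rw [h3, ← ContinuousLinearMap.star_eq_adjoint]
      show _ = (star W * W) _
      rw [h4]; rfl)
  intro y
  have hy : y ∈ LinearMap.range (Z : lp K 2 →ₗ[ℂ] K') := by rw [htop]; trivial
  obtain ⟨k, hk⟩ := hy
  exact ⟨k, hk⟩

omit [CompleteSpace K'] in
private lemma pow_comm_Z {W : K' →L[ℂ] K'} {Z : lp K 2 →L[ℂ] K'}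
    (hZW : ∀ k, W (Z k) = Z (WW R k)) (n : ℕ) (k : lp K 2) : (W ^ n) (Z k) = Z ((WW R ^ n) k) := by
  induction n with
  | zero => simp
  | succ n ih => rw [pow_succ_apply, ih, hZW, pow_succ_apply]

omit [CompleteSpace K'] in
private lemma aeval_comm_Z {W : K' →L[ℂ] K'} {Z : lp K 2 →L[ℂ] K'}
    (hZW : ∀ k, W (Z k) = Z (WW R k)) (p : Polynomial ℂ) (k : lp K 2) :
    (Polynomial.aeval W p) (Z k) = Z ((Polynomial.aeval (WW R) p) k) := by
  induction p using Polynomial.induction_on' with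
  | add p q hp hq =>
    rw [map_add, map_add, add_apply, add_apply, map_add, hp, hq]
  | monomial n a =>
    rw [Polynomial.aeval_monomial, Polynomial.aeval_monomial, mul_apply_eq_comp, mul_apply_eq_comp,
      pow_comm_Z R hZW, Algebra.algebraMap_eq_smul_one, Algebra.algebraMap_eq_smul_one, smul_apply,
      smul_apply, one_apply_eq_self, one_apply_eq_self, map_smul]

/-- singularity of every unitary operator which is a similar copy of `W` -/
private lemma singular_of_factor {W : K' →L[ℂ] K'} (hW : W ∈ unitary (K' →L[ℂ] K'))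
    {Z : lp K 2 →L[ℂ] K'} (hZn : ∀ k, ‖Z k‖ ≤ 2 * ‖k‖) (hZW : ∀ k, W (Z k) = Z (WW R k))
    (k : lp K 2) (μ : Measure ℂ) (hμs : IsSM W (Z k) μ) : μ ⟂ₘ arcLength := by
  obtain ⟨hfin, hμ, hmom⟩ := hμs
  apply mutuallySingular_of_approx hμ nu_sphere
  intro ε hε
  -- choose n
  have h1 := (DD'_pow_tendsto R k).norm
  rw [norm_zero] at h1
  have h1' : Tendsto (fun n => ‖(DD' R ^ n) k‖ ^ 2) atTop (𝓝 0) := by
    have := h1.pow 2
    rwa [zero_pow (by norm_num)] at this
  obtain ⟨n, hn⟩ := (h1'.eventually (gt_mem_nhds (by positivity : 0 < ε / 4))).exists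
  -- choose J
  have h2 := ((one_sub_AA_pow_tendsto R n k).norm).pow 2
  have h3 := h2.eventually (gt_mem_nhds hn)
  have h4 : Tendsto (fun J : ℕ => (4 ^ n * (2 * Real.pi)) * ((J : ℝ)⁻¹)) atTop (𝓝 0) := by
    have := (tendsto_inv_atTop_nhds_zero_nat (𝕜 := ℝ)).const_mul (4 ^ n * (2 * Real.pi))
    rwa [mul_zero] at this
  have h5 := h4.eventually (gt_mem_nhds hε)
  obtain ⟨J, hJ1, hJ2, hJ3⟩ := (h3.and (h5.and (eventually_gt_atTop 0))).exists
  refine ⟨(1 - qpol J) ^ n, ?_, ?_⟩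
  · rw [poly_moment W hW (Z k) μ hμ hmom, aeval_comm_Z R hZW, map_pow, map_sub, map_one, aeval_qpol]
    have h6 := hZn (((1 - AA R J) ^ n) k)
    have h7 : ‖Z (((1 - AA R J) ^ n) k)‖ ^ 2 ≤ (2 * ‖((1 - AA R J) ^ n) k‖) ^ 2 := by gcongr
    nlinarith [hJ1.le]
  · calc ∫ z, ‖1 - ((1 - qpol J) ^ n).eval z‖ ^ 2 ∂nu
        ≤ ∫ z, 4 ^ n * ‖(qpol J).eval z‖ ^ 2 ∂nu := by
          apply integral_mono_ae
          · apply Sing.integrable_of_sphere nu_sphere
            exact ((continuous_const.sub (Polynomial.continuous _)).norm).pow 2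
          · apply Sing.integrable_of_sphere nu_sphere
            exact continuous_const.mul ((Polynomial.continuous _).norm.pow 2)
          · filter_upwards [Sing.ae_sphere nu_sphere] with z hz
            have h6 := norm_one_sub_pow_le (norm_qpol_le J hz) n
            rw [Polynomial.eval_pow, Polynomial.eval_sub, Polynomial.eval_one]
            calc ‖1 - (1 - (qpol J).eval z) ^ n‖ ^ 2 ≤ (2 ^ n * ‖(qpol J).eval z‖) ^ 2 := by gcongr
              _ = 4 ^ n * ‖(qpol J).eval z‖ ^ 2 := by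
                rw [mul_pow, ← pow_mul, mul_comm n 2, pow_mul]
                norm_num
      _ = 4 ^ n * (2 * Real.pi / J) := by
          rw [integral_const_mul]
          congr 1
          exact lebesgue_moment Mn Mn_injective J hJ3
      _ = (4 ^ n * (2 * Real.pi)) * ((J : ℝ)⁻¹) := by ring
      _ ≤ ε := hJ2.le

end Fam

/-- The complexification of a real Banach limit. -/
private noncomputable def cplx (L : (ℕ →ᵇ ℝ) →L[ℝ] ℝ) : (ℕ →ᵇ ℂ) →L[ℂ] ℂ :=
  StrongDual.extendRCLike (𝕜 := ℂ)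
    ((L.comp (ContinuousLinearMap.compLeftContinuousBounded ℕ Complex.reCLM) : (ℕ →ᵇ ℂ) →L[ℝ] ℝ))

private lemma cplx_re (L : (ℕ →ᵇ ℝ) →L[ℝ] ℝ) (f : ℕ →ᵇ ℂ) (g : ℕ →ᵇ ℝ) (h : ∀ n, g n = (f n).re) :
    (cplx L f).re = L g := by
  have h1 := StrongDual.re_extendRCLike_apply (𝕜 := ℂ)
    ((L.comp (ContinuousLinearMap.compLeftContinuousBounded ℕ Complex.reCLM) : (ℕ →ᵇ ℂ) →L[ℝ] ℝ)) f
  have h2 : (ContinuousLinearMap.compLeftContinuousBounded ℕ Complex.reCLM) f = g := by
    ext n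
    rw [h n]
    rfl
  refine Eq.trans h1 ?_
  show L ((ContinuousLinearMap.compLeftContinuousBounded ℕ Complex.reCLM) f) = L g
  rw [h2]

private lemma cplx_im (L : (ℕ →ᵇ ℝ) →L[ℝ] ℝ) (f : ℕ →ᵇ ℂ) (g : ℕ →ᵇ ℝ) (h : ∀ n, g n = (f n).im) :
    (cplx L f).im = L g := by
  have h1 := cplx_re L ((-Complex.I) • f) g (by
    intro n
    rw [h n]
    simp)
  rw [map_smul, smul_eq_mul] at h1
  rw [← h1]
  simp

private lemma cplx_banach {L : (ℕ →ᵇ ℝ) →L[ℝ] ℝ} (hL1 : ∀ f : ℕ →ᵇ ℝ, (∀ n, 0 ≤ f n) → 0 ≤ L f)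
    (hL2 : L (BoundedContinuousFunction.const ℕ (1 : ℝ)) = 1)
    (hL3 : ∀ f g : ℕ →ᵇ ℝ, (∀ n, g n = f (n + 1)) → L g = L f) : IsBL (cplx L) where
  nonneg f hf := by
    constructor
    · rw [cplx_re L f (ContinuousLinearMap.compLeftContinuousBounded ℕ Complex.reCLM f) (fun n => rfl)]
      exact hL1 _ fun n => (hf n).1
    · rw [cplx_im L f 0 (fun n => (hf n).2.symm)]
      exact map_zero L
  one := by
    apply Complex.ext
    · rw [cplx_re L _ (BoundedContinuousFunction.const ℕ (1 : ℝ)) (fun n => rfl), hL2]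
      rfl
    · rw [cplx_im L _ 0 (fun n => rfl)]
      exact map_zero L
  shift f g h := by
    have e1 : ∀ k : ℕ →ᵇ ℂ, (cplx L k).re =
        L (ContinuousLinearMap.compLeftContinuousBounded ℕ Complex.reCLM k) := fun k =>
      cplx_re L k _ (fun n => rfl)
    have e2 : ∀ k : ℕ →ᵇ ℂ, (cplx L k).im =
        L (ContinuousLinearMap.compLeftContinuousBounded ℕ Complex.imCLM k) := fun k =>
      cplx_im L k _ (fun n => rfl)
    apply Complex.ext
    · rw [e1, e1]
      apply hL3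
      intro n
      show (g n).re = (f (n + 1)).re
      rw [h n]
    · rw [e2, e2]
      apply hL3
      intro n
      show (g n).im = (f (n + 1)).im
      rw [h n]

section Fam2

variable {K : ℕ → Type} [∀ i, NormedAddCommGroup (K i)] [∀ i, InnerProductSpace ℂ (K i)]
  [∀ i, CompleteSpace (K i)] {c s : ℕ → ℝ} (R : ∀ i, RSys (K i) (c i) (s i))

/-- the sequence of the inner products -/
private noncomputable def seq (x y : lp K 2) : ℕ →ᵇ ℂ :=
  BoundedContinuousFunction.ofNormedAddCommGroupDiscrete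
    (fun n => ⟪(TT R ^ n) x, (TT R ^ n) y⟫_ℂ) (2 * ‖x‖ * (2 * ‖y‖)) (fun n =>
      (norm_inner_le_norm _ _).trans (mul_le_mul (norm_TT_pow R n x) (norm_TT_pow R n y)
        (norm_nonneg _) (by positivity)))

private lemma seq_apply (x y : lp K 2) (n : ℕ) :
    seq R x y n = ⟪(TT R ^ n) x, (TT R ^ n) y⟫_ℂ := rfl

/-- a Banach limit is real on real sequences -/
private lemma limit_im {L : (ℕ →ᵇ ℂ) →L[ℂ] ℂ} (hL : IsBL L) (f : ℕ →ᵇ ℂ)
    (hf : ∀ n, (f n).im = 0) : (L f).im = 0 := by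
  have h1 := (hL.nonneg (f + ((‖f‖ : ℝ) : ℂ) • BoundedContinuousFunction.const ℕ (1 : ℂ)) (by
    intro n
    simp only [BoundedContinuousFunction.coe_add, BoundedContinuousFunction.coe_smul,
      Pi.add_apply, BoundedContinuousFunction.const_apply, smul_eq_mul, mul_one,
      Complex.add_re, Complex.add_im, Complex.ofReal_re, Complex.ofReal_im, hf n, add_zero]
    refine ⟨?_, trivial⟩
    have h2 := (Complex.abs_re_le_norm (f n)).trans (f.norm_coe_le_norm n)
    linarith [neg_abs_le (f n).re])).2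
  rw [map_add, map_smul, hL.one, smul_eq_mul, mul_one, Complex.add_im, Complex.ofReal_im,
    add_zero] at h1
  exact h1

private lemma limit_conj {L : (ℕ →ᵇ ℂ) →L[ℂ] ℂ} (hL : IsBL L) (f g : ℕ →ᵇ ℂ)
    (h : ∀ n, g n = (starRingEnd ℂ) (f n)) : L g = (starRingEnd ℂ) (L f) := by
  have h1 := limit_im hL (f + g) (by
    intro n
    simp [h n])
  have h2 := limit_im hL (Complex.I • (g - f)) (by
    intro n
    simp [h n])
  rw [map_add, Complex.add_im] at h1
  rw [map_smul, map_sub, smul_eq_mul, Complex.I_mul_im, Complex.sub_re] at h2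
  apply Complex.ext
  · rw [Complex.conj_re]; linarith
  · rw [Complex.conj_im]; linarith

private lemma seq_shift {L : (ℕ →ᵇ ℂ) →L[ℂ] ℂ} (hL : IsBL L) (x y : lp K 2) (m : ℕ) :
    L (seq R ((TT R ^ m) x) ((TT R ^ m) y)) = L (seq R x y) := by
  induction m with
  | zero => simp
  | succ m ih =>
    rw [← ih]
    apply hL.shift
    intro n
    rw [seq_apply, seq_apply]
    congr 1
    · rw [← mul_apply_eq_comp, ← mul_apply_eq_comp, ← pow_add, ← pow_add]
      congr 2
      ring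
    · rw [← mul_apply_eq_comp, ← mul_apply_eq_comp, ← pow_add, ← pow_add]
      congr 2
      ring

private lemma seq_bound {L : (ℕ →ᵇ ℂ) →L[ℂ] ℂ} (hL : IsBL L) (x y : lp K 2) :
    ‖L (seq R x y)‖ ≤ (4 * ‖L‖ * ‖XX R x‖) * ‖XX R y‖ := by
  have h0 : ∀ m, ‖L (seq R x y)‖ ≤ ‖L‖ * (2 * ‖(TT R ^ m) x‖ * (2 * ‖(TT R ^ m) y‖)) := by
    intro m
    rw [← seq_shift R hL x y m]
    refine (L.le_opNorm _).trans ?_
    refine mul_le_mul_of_nonneg_left ?_ (norm_nonneg _)
    rw [BoundedContinuousFunction.norm_le (by positivity)]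
    intro n
    rw [seq_apply]
    exact (norm_inner_le_norm _ _).trans (mul_le_mul (norm_TT_pow R n _) (norm_TT_pow R n _)
      (norm_nonneg _) (by positivity))
  have hw : ∀ z : lp K 2, Tendsto (fun l => ‖(TT R ^ (wdw l)) z‖) atTop (𝓝 ‖XX R z‖) := by
    intro z
    have h1 : Tendsto (fun l => ‖(TT R ^ (wdw l)) z‖ ^ 2) atTop (𝓝 (‖XX R z‖ ^ 2)) := by
      rw [Metric.tendsto_atTop]
      intro ε hε
      obtain ⟨N, hN⟩ := Filter.eventually_atTop.mp (window_norm R z (ε := ε / 2) (by positivity))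
      refine ⟨N, fun l hl => ?_⟩
      rw [Real.dist_eq]
      have := hN l hl (wdw l) le_rfl (Nat.le_add_right _ _)
      linarith
    have h2 := h1.sqrt
    rw [Real.sqrt_sq (norm_nonneg _)] at h2
    refine h2.congr fun l => ?_
    rw [Real.sqrt_sq (norm_nonneg _)]
  have h1 : Tendsto (fun l => ‖L‖ * (2 * ‖(TT R ^ (wdw l)) x‖ * (2 * ‖(TT R ^ (wdw l)) y‖))) atTop
      (𝓝 (‖L‖ * (2 * ‖XX R x‖ * (2 * ‖XX R y‖)))) :=
    (((hw x).const_mul 2).mul ((hw y).const_mul 2)).const_mul _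
  have h2 := ge_of_tendsto' h1 (fun l => h0 (wdw l))
  linarith

/-- the functional `y ↦ L(⟪T^n x, T^n y⟫)` -/
private noncomputable def fun1 (L : (ℕ →ᵇ ℂ) →L[ℂ] ℂ) (x : lp K 2) : lp K 2 →ₗ[ℂ] ℂ where
  toFun y := L (seq R x y)
  map_add' y z := by
    rw [← map_add]
    congr 1
    ext n
    rw [BoundedContinuousFunction.coe_add, Pi.add_apply, seq_apply, seq_apply, seq_apply, map_add,
      inner_add_right]
  map_smul' a y := by
    rw [RingHom.id_apply, ← map_smul]
    congr 1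
    ext n
    show ⟪(TT R ^ n) x, (TT R ^ n) (a • y)⟫_ℂ = a • ⟪(TT R ^ n) x, (TT R ^ n) y⟫_ℂ
    rw [map_smul, inner_smul_right, smul_eq_mul]

private lemma exists_riesz {L : (ℕ →ᵇ ℂ) →L[ℂ] ℂ} (hL : IsBL L) (x : lp K 2) :
    ∃ a : lp K 2, ‖a‖ ≤ 4 * ‖L‖ * ‖XX R x‖ ∧ ∀ y, ⟪a, XX R y⟫_ℂ = L (seq R x y) := by
  have hb : ∀ y, ‖fun1 R L x y‖ ≤ (4 * ‖L‖ * ‖XX R x‖) * ‖(XX R : lp K 2 →ₗ[ℂ] lp K 2) y‖ :=
    fun y => seq_bound R hL x y
  set ψ : lp K 2 →L[ℂ] ℂ := (fun1 R L x).extendOfNorm (XX R : lp K 2 →ₗ[ℂ] lp K 2) with hψ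
  refine ⟨(InnerProductSpace.toDual ℂ (lp K 2)).symm ψ, ?_, fun y => ?_⟩
  · rw [LinearIsometryEquiv.norm_map]
    exact LinearMap.opNorm_extendOfNorm_le (XX_dense R) (by positivity) hb
  · rw [InnerProductSpace.toDual_symm_apply]
    exact LinearMap.extendOfNorm_eq (XX_dense R) ⟨_, hb⟩ y

private lemma ext_dense {a b : lp K 2} (h : ∀ y, ⟪a, XX R y⟫_ℂ = ⟪b, XX R y⟫_ℂ) : a = b := by
  apply ext_inner_right ℂ
  have h1 : (fun k => ⟪a, k⟫_ℂ) = fun k => ⟪b, k⟫_ℂ := by
    apply (XX_dense R).equalizer (by fun_prop) (by fun_prop)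
    funext y
    exact h y
  intro k
  exact congrFun h1 k

/-- the Gram operator of the form given by a Banach limit -/
private lemma exists_gram {L : (ℕ →ᵇ ℂ) →L[ℂ] ℂ} (hL : IsBL L) :
    ∃ A : lp K 2 →L[ℂ] lp K 2, ∀ x y, ⟪A (XX R x), XX R y⟫_ℂ = L (seq R x y) := by
  choose a ha hay using exists_riesz R hL
  let a' : lp K 2 →ₗ[ℂ] lp K 2 :=
    { toFun := a
      map_add' := by
        intro x z
        apply ext_dense R
        intro y
        rw [inner_add_left, hay, hay, hay, ← map_add]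
        congr 1
        ext n
        rw [BoundedContinuousFunction.coe_add, Pi.add_apply, seq_apply, seq_apply, seq_apply,
          map_add, inner_add_left]
      map_smul' := by
        intro r x
        apply ext_dense R
        intro y
        rw [RingHom.id_apply, inner_smul_left, hay, hay, ← smul_eq_mul, ← map_smul]
        congr 1
        ext n
        show ⟪(TT R ^ n) (r • x), (TT R ^ n) y⟫_ℂ =
          (starRingEnd ℂ) r • ⟪(TT R ^ n) x, (TT R ^ n) y⟫_ℂ
        rw [map_smul, inner_smul_left, smul_eq_mul] }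
  refine ⟨a'.extendOfNorm (XX R : lp K 2 →ₗ[ℂ] lp K 2), fun x y => ?_⟩
  have h1 : a'.extendOfNorm (XX R : lp K 2 →ₗ[ℂ] lp K 2) (XX R x) = a x :=
    LinearMap.extendOfNorm_eq (XX_dense R) ⟨_, ha⟩ x
  rw [h1, hay]

omit [∀ i, CompleteSpace (K i)] in
private lemma exists_sqrt {E : Type} [NormedAddCommGroup E] [InnerProductSpace ℂ E]
    [CompleteSpace E] (A : E →L[ℂ] E) (hA : 0 ≤ A) :
    ∃ B : E →L[ℂ] E, B * B = A ∧ adjoint B = B ∧ ∀ W : E →L[ℂ] E, Commute A W → Commute B W := by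
  refine ⟨CFC.sqrt A, CFC.sqrt_mul_sqrt_self A hA, ?_, fun W hW => Commute.cfcₙ_nnreal hW NNReal.sqrt⟩
  have : IsSelfAdjoint (CFC.sqrt A) := IsSelfAdjoint.of_nonneg (CFC.sqrt_nonneg A)
  rw [← ContinuousLinearMap.star_eq_adjoint]
  exact this

/-- the unitary asymptote exists for every Banach limit -/
private lemma exists_asymptote {L : (ℕ →ᵇ ℂ) →L[ℂ] ℂ} (hL : IsBL L) :
    ∃ X : lp K 2 →L[ℂ] lp K 2, IsUA L (TT R) (WW R) X ∧ DenseRange X := by
  obtain ⟨A, hA⟩ := exists_gram R hL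
  -- `A` is selfadjoint
  have hsymm : ∀ k l : lp K 2, ⟪A k, l⟫_ℂ = ⟪k, A l⟫_ℂ := by
    have h1 : ∀ x y, ⟪A (XX R x), XX R y⟫_ℂ = ⟪XX R x, A (XX R y)⟫_ℂ := by
      intro x y
      rw [hA, ← inner_conj_symm, hA]
      apply limit_conj hL
      intro n
      rw [seq_apply, seq_apply, inner_conj_symm]
    have h2 : ∀ x l, ⟪A (XX R x), l⟫_ℂ = ⟪XX R x, A l⟫_ℂ := by
      intro x l
      have h3 : (fun l => ⟪A (XX R x), l⟫_ℂ) = fun l => ⟪XX R x, A l⟫_ℂ := by
        apply (XX_dense R).equalizer (by fun_prop) (by fun_prop)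
        funext y
        exact h1 x y
      exact congrFun h3 l
    intro k l
    have h3 : (fun k => ⟪A k, l⟫_ℂ) = fun k => ⟪k, A l⟫_ℂ := by
      apply (XX_dense R).equalizer (by fun_prop) (by fun_prop)
      funext x
      exact h2 x l
    exact congrFun h3 k
  -- `A ≥ 1`
  have hlow : ∀ k : lp K 2, ‖k‖ ^ 2 ≤ (⟪A k, k⟫_ℂ).re := by
    intro k
    have hcl : IsClosed {k : lp K 2 | ‖k‖ ^ 2 ≤ (⟪A k, k⟫_ℂ).re} :=
      isClosed_le (by fun_prop) (Complex.continuous_re.comp (by fun_prop))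
    refine (XX_dense R).induction_on k hcl ?_
    intro x
    show ‖XX R x‖ ^ 2 ≤ (⟪A (XX R x), XX R x⟫_ℂ).re
    rw [hA]
    refine (limit_bounds hL (seq R x x) (‖XX R x‖ ^ 2) ((2 * ‖x‖) ^ 2) ?_).1
    intro n
    refine ⟨‖(TT R ^ n) x‖ ^ 2, ?_, ?_, ?_⟩
    · rw [seq_apply, inner_self_eq_norm_sq_to_K]
      push_cast
      rfl
    · have := norm_XX_le R x n
      gcongr
    · have := norm_TT_pow R n x
      gcongr
  have hAnn : 0 ≤ A := by
    rw [ContinuousLinearMap.nonneg_iff_isPositive]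
    refine ⟨?_, ?_⟩
    · intro k l
      exact hsymm k l
    · intro k
      exact le_trans (by positivity) (hlow k)
  obtain ⟨B, hBB, hBsa, hBcomm⟩ := exists_sqrt A hAnn
  -- `A` commutes with `W`
  have hcomm : Commute A (WW R) := by
    have h1 : ∀ k l, ⟪A (WW R k), WW R l⟫_ℂ = ⟪A k, l⟫_ℂ := by
      have hX : ∀ x, WW R (XX R x) = XX R (TT R x) := fun x =>
        (congrArg (fun A : lp K 2 →L[ℂ] lp K 2 => A x) (XX_comp R)).symm
      have h2 : ∀ x y, ⟪A (WW R (XX R x)), WW R (XX R y)⟫_ℂ = ⟪A (XX R x), XX R y⟫_ℂ := by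
        intro x y
        rw [hX, hX, hA, hA]
        have := seq_shift R hL x y 1
        rwa [pow_one] at this
      have h3 : ∀ x l, ⟪A (WW R (XX R x)), WW R l⟫_ℂ = ⟪A (XX R x), l⟫_ℂ := by
        intro x l
        have h4 : (fun l => ⟪A (WW R (XX R x)), WW R l⟫_ℂ) = fun l => ⟪A (XX R x), l⟫_ℂ := by
          apply (XX_dense R).equalizer (by fun_prop) (by fun_prop)
          funext y
          exact h2 x y
        exact congrFun h4 l
      intro k l
      have h5 : (fun k => ⟪A (WW R k), WW R l⟫_ℂ) = fun k => ⟪A k, l⟫_ℂ := by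
        apply (XX_dense R).equalizer (by fun_prop) (by fun_prop)
        funext x
        exact h3 x l
      exact congrFun h5 k
    have h2 : ∀ k, A (WW R k) = WW R (A k) := by
      intro k
      apply ext_inner_right ℂ
      intro l
      have h3 : WW R (star (WW R) l) = l := by
        show (WW R * star (WW R)) l = l
        rw [(Unitary.mem_iff.mp (WW_unitary R)).2]; rfl
      have h4 := h1 k (star (WW R) l)
      rw [h3] at h4
      rw [h4, ContinuousLinearMap.star_eq_adjoint, ContinuousLinearMap.adjoint_inner_right]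
    ext1 k
    exact h2 k
  have hcommB : Commute B (WW R) := hBcomm _ hcomm
  have hBW : ∀ k, B (WW R k) = WW R (B k) := fun k =>
    congrArg (fun A : lp K 2 →L[ℂ] lp K 2 => A k) hcommB.eq
  -- `B` has dense range
  have hBd : DenseRange B := by
    have h1 : (LinearMap.range (B : lp K 2 →ₗ[ℂ] lp K 2)).topologicalClosure = ⊤ := by
      rw [Submodule.topologicalClosure_eq_top_iff, Submodule.eq_bot_iff]
      intro k hk
      have h2 : ⟪B (B k), k⟫_ℂ = 0 := by
        rw [Submodule.mem_orthogonal] at hk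
        exact hk _ ⟨B k, rfl⟩
      have h3 : B (B k) = A k := by
        rw [← hBB, mul_apply_eq_comp]
      have h4 := hlow k
      rw [← h3, h2, Complex.zero_re] at h4
      have h5 : ‖k‖ = 0 := by
        have := norm_nonneg k
        nlinarith
      exact norm_eq_zero.mp h5
    have h2 := congrArg (fun G : Submodule ℂ (lp K 2) => (G : Set (lp K 2))) h1
    simp only [Submodule.topologicalClosure_coe, Submodule.top_coe] at h2
    rw [DenseRange, dense_iff_closure_eq]
    exact h2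
  have hd : DenseRange (fun x => B (XX R x)) := hBd.comp (XX_dense R) B.continuous
  refine ⟨B.comp (XX R), ⟨fun x y => ⟨seq R x y, fun n => rfl, ?_⟩, ?_, WW_unitary R, ?_⟩, hd⟩
  · rw [← hA, ← hBB, mul_apply_eq_comp]
    show ⟪B (XX R x), B (XX R y)⟫_ℂ = ⟪B (B (XX R x)), XX R y⟫_ℂ
    rw [← ContinuousLinearMap.adjoint_inner_left, hBsa]
  · ext1 x
    show B (XX R (TT R x)) = WW R (B (XX R x))
    have h2 : XX R (TT R x) = WW R (XX R x) :=
      (congrArg (fun A : lp K 2 →L[ℂ] lp K 2 => A x) (XX_comp R))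
    rw [h2, hBW]
  · intro M hM hX _ _
    rw [eq_top_iff]
    intro y _
    exact hd.induction_on y hM hX

end Fam2


/-! ### From the auxiliary versions to the definitions -/

private lemma pow_iter {E : Type} [NormedAddCommGroup E] [NormedSpace ℂ E] (A : E →L[ℂ] E)
    (n : ℕ) (x : E) : (A ^ n) x = A^[n] x := by
  induction n with
  | zero => simp
  | succ n ih => rw [pow_succ_apply, ih, Function.iterate_succ_apply']

private lemma real_bound {L : (ℕ → ℂ) → ℂ} (hL : IsBanachLimit L) (f : ℕ → ℝ) (M : ℝ)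
    (hf : ∀ n, |f n| ≤ M) : ∃ r : ℝ, L (fun n => (f n : ℂ)) = r ∧ |r| ≤ M := by
  have hM : 0 ≤ M := (abs_nonneg _).trans (hf 0)
  have hconst : L (fun _ => (M : ℂ)) = M := by
    have h1 := hL.smul (M : ℂ) (fun _ => 1) 1 (fun n => by simp)
    simp only [mul_one] at h1
    rw [h1, hL.one, mul_one]
  have hneg : L (fun n => ((-f n : ℝ) : ℂ)) = - L (fun n => (f n : ℂ)) := by
    have h1 := hL.smul (-1 : ℂ) (fun n => (f n : ℂ)) M (fun n => by
      rw [Complex.norm_real]; exact hf n)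
    rw [neg_one_mul] at h1
    rw [← h1]
    congr 1
    funext n
    push_cast
    ring
  obtain ⟨r1, hr1, h1⟩ := hL.nonneg (fun n => f n + M) (2 * M) (fun n => by
    have := abs_le.mp (hf n)
    constructor <;> linarith [this.1, this.2])
  obtain ⟨r2, hr2, h2⟩ := hL.nonneg (fun n => -f n + M) (2 * M) (fun n => by
    have := abs_le.mp (hf n)
    constructor <;> linarith [this.1, this.2])
  have e1 : L (fun n => ((f n + M : ℝ) : ℂ)) = L (fun n => (f n : ℂ)) + M := by
    have h3 := hL.add (fun n => (f n : ℂ)) (fun _ => (M : ℂ)) M (fun n => by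
      rw [Complex.norm_real]; exact hf n) (fun n => by
      rw [Complex.norm_real, Real.norm_of_nonneg hM])
    rw [hconst] at h3
    rw [← h3]
    congr 1
    funext n
    push_cast
    ring
  have e2 : L (fun n => ((-f n + M : ℝ) : ℂ)) = - L (fun n => (f n : ℂ)) + M := by
    have h3 := hL.add (fun n => ((-f n : ℝ) : ℂ)) (fun _ => (M : ℂ)) M (fun n => by
      rw [Complex.norm_real, norm_neg]; exact hf n) (fun n => by
      rw [Complex.norm_real, Real.norm_of_nonneg hM])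
    rw [hconst, hneg] at h3
    rw [← h3]
    congr 1
    funext n
    push_cast
    ring
  rw [e1] at h1
  rw [e2] at h2
  have e3 : L (fun n => (f n : ℂ)) = ((r1 - M : ℝ) : ℂ) := by
    push_cast
    linear_combination h1
  refine ⟨r1 - M, e3, ?_⟩
  have e4 : ((r2 : ℝ) : ℂ) = ((-(r1 - M) + M : ℝ) : ℂ) := by
    push_cast
    push_cast at e3
    linear_combination -h2 - e3
  have e5 : r2 = -(r1 - M) + M := by exact_mod_cast e4
  rw [abs_le]
  constructor <;> linarith

private lemma add_bdd {L : (ℕ → ℂ) → ℂ} (hL : IsBanachLimit L) (f g : ℕ →ᵇ ℂ) :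
    L (fun n => f n + g n) = L (fun n => f n) + L (fun n => g n) :=
  hL.add _ _ (max ‖f‖ ‖g‖) (fun n => (f.norm_coe_le_norm n).trans (le_max_left _ _))
    (fun n => (g.norm_coe_le_norm n).trans (le_max_right _ _))

private lemma norm_bdd {L : (ℕ → ℂ) → ℂ} (hL : IsBanachLimit L) (f : ℕ →ᵇ ℂ) :
    ‖L (fun n => f n)‖ ≤ 2 * ‖f‖ := by
  obtain ⟨r1, h1, h1'⟩ := real_bound hL (fun n => (f n).re) ‖f‖ (fun n =>
    (Complex.abs_re_le_norm _).trans (f.norm_coe_le_norm n))
  obtain ⟨r2, h2, h2'⟩ := real_bound hL (fun n => (f n).im) ‖f‖ (fun n =>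
    (Complex.abs_im_le_norm _).trans (f.norm_coe_le_norm n))
  have h3 := hL.smul Complex.I (fun n => (((f n).im : ℝ) : ℂ)) ‖f‖ (fun n => by
    rw [Complex.norm_real]
    exact (Complex.abs_im_le_norm _).trans (f.norm_coe_le_norm n))
  have h4 := hL.add (fun n => (((f n).re : ℝ) : ℂ)) (fun n => Complex.I * (((f n).im : ℝ) : ℂ)) ‖f‖
    (fun n => by
      rw [Complex.norm_real]
      exact (Complex.abs_re_le_norm _).trans (f.norm_coe_le_norm n))
    (fun n => by
      rw [norm_mul, Complex.norm_I, one_mul, Complex.norm_real]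
      exact (Complex.abs_im_le_norm _).trans (f.norm_coe_le_norm n))
  have h5 : (fun n => (((f n).re : ℝ) : ℂ) + Complex.I * (((f n).im : ℝ) : ℂ)) = fun n => f n := by
    funext n
    rw [mul_comm]
    exact Complex.re_add_im _
  rw [h5, h3, h1, h2] at h4
  rw [h4]
  refine (norm_add_le _ _).trans ?_
  rw [norm_mul, Complex.norm_I, one_mul, Complex.norm_real, Complex.norm_real, Real.norm_eq_abs,
    Real.norm_eq_abs]
  linarith

/-- the continuous functional of a Banach limit -/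
private noncomputable def toCLM {L : (ℕ → ℂ) → ℂ} (hL : IsBanachLimit L) : (ℕ →ᵇ ℂ) →L[ℂ] ℂ :=
  LinearMap.mkContinuous
    { toFun := fun f => L (fun n => f n)
      map_add' := fun f g => add_bdd hL f g
      map_smul' := fun a f => hL.smul a (fun n => f n) ‖f‖ (fun n => f.norm_coe_le_norm n) } 2
    (fun f => norm_bdd hL f)

private lemma toCLM_apply {L : (ℕ → ℂ) → ℂ} (hL : IsBanachLimit L) (f : ℕ →ᵇ ℂ) :
    toCLM hL f = L (fun n => f n) := rfl

private lemma toCLM_bl {L : (ℕ → ℂ) → ℂ} (hL : IsBanachLimit L) : IsBL (toCLM hL) where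
  nonneg f hf := by
    rw [toCLM_apply]
    obtain ⟨r, hr, h⟩ := hL.nonneg (fun n => (f n).re) ‖f‖ (fun n =>
      ⟨(hf n).1, (le_abs_self _).trans ((Complex.abs_re_le_norm _).trans (f.norm_coe_le_norm n))⟩)
    have e : (fun n => (((f n).re : ℝ) : ℂ)) = fun n => f n := by
      funext n
      apply Complex.ext
      · simp
      · simp [(hf n).2]
    rw [e] at h
    rw [h]
    exact ⟨by simpa using hr, by simp⟩
  one := by
    rw [toCLM_apply]
    exact hL.one
  shift f g h := by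
    rw [toCLM_apply, toCLM_apply]
    rw [← hL.shift (fun n => f n) ‖f‖ (fun n => f.norm_coe_le_norm n)]
    congr 1
    funext n
    exact h n

section Bridge

variable {K' : Type} [NormedAddCommGroup K'] [InnerProductSpace ℂ K'] [CompleteSpace K']

/-- the bounded operator of a surjective linear isometry -/
private noncomputable def opW (W : K' ≃ₗᵢ[ℂ] K') : K' →L[ℂ] K' :=
  ((Unitary.linearIsometryEquiv.symm W : unitary (K' →L[ℂ] K')) : K' →L[ℂ] K')

private lemma opW_apply (W : K' ≃ₗᵢ[ℂ] K') (y : K') : opW W y = W y := rfl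

private lemma opW_unitary (W : K' ≃ₗᵢ[ℂ] K') : opW W ∈ unitary (K' →L[ℂ] K') :=
  (Unitary.linearIsometryEquiv.symm W : unitary (K' →L[ℂ] K')).2

private lemma opW_coe (W : K' ≃ₗᵢ[ℂ] K') : (opW W : K' → K') = W := rfl

private lemma sm_iff (W : K' ≃ₗᵢ[ℂ] K') (y : K') (μ : Measure ℂ) :
    IsSpectralMeasure W y μ ↔ IsSM (opW W) y μ := by
  unfold IsSpectralMeasure IsSM
  simp only [pow_iter, opW_coe]

end Bridge

section Fam3

variable {K : ℕ → Type} [∀ i, NormedAddCommGroup (K i)] [∀ i, InnerProductSpace ℂ (K i)]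
  [∀ i, CompleteSpace (K i)] {c s : ℕ → ℝ} (R : ∀ i, RSys (K i) (c i) (s i))
  {K' : Type} [NormedAddCommGroup K'] [InnerProductSpace ℂ K'] [CompleteSpace K']

private lemma ua_of {L : (ℕ → ℂ) → ℂ} (hL : IsBanachLimit L) {W : K' ≃ₗᵢ[ℂ] K'}
    {X : lp K 2 →L[ℂ] K'} (h : IsUnitaryAsymptote L (TT R) W X) :
    IsUA (toCLM hL) (TT R) (opW W) X where
  inner_eq x y := by
    refine ⟨seq R x y, fun n => rfl, ?_⟩
    rw [toCLM_apply, h.inner_eq x y]
    congr 1
    funext n
    rw [seq_apply, pow_iter, pow_iter]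
  intertwines := by
    ext1 x
    exact h.intertwines x
  unitary := opW_unitary W
  minimal M hM hX hW hW' := by
    have h1 : ∀ (n : ℕ) (y : K'), W^[n] y ∈ M → y ∈ M := by
      intro n
      induction n with
      | zero => intro y hy; exact hy
      | succ n ih =>
        intro y hy
        rw [Function.iterate_succ_apply] at hy
        have h2 := hW' _ (ih _ hy)
        have h3 : adjoint (opW W) (W y) = y := by
          rw [← ContinuousLinearMap.star_eq_adjoint]
          show (star (opW W) * opW W) y = y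
          rw [(Unitary.mem_iff.mp (opW_unitary W)).1]; rfl
        rwa [h3] at h2
    rw [eq_top_iff]
    intro y _
    have h4 : y ∈ closure {y : K' | ∃ (n : ℕ) (x : lp K 2), W^[n] y = X x} := h.minimal y
    have h5 : closure {y : K' | ∃ (n : ℕ) (x : lp K 2), W^[n] y = X x} ⊆ (M : Set K') := by
      apply closure_minimal _ hM
      rintro z ⟨n, x, hz⟩
      exact h1 n z (by rw [hz]; exact hX x)
    exact h5 h4

private lemma has_asymptote {L : (ℕ → ℂ) → ℂ} (hL : IsBanachLimit L) : HasAsymptote L (TT R) := by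
  obtain ⟨X, hX, hXd⟩ := exists_asymptote R (toCLM_bl hL)
  refine ⟨lp K 2, inferInstance, inferInstance, inferInstance,
    Unitary.linearIsometryEquiv ⟨WW R, WW_unitary R⟩, X, ⟨fun x y => ?_, fun x => ?_, ?_⟩⟩
  · obtain ⟨f, hf, hXf⟩ := hX.inner_eq x y
    rw [hXf, toCLM_apply]
    congr 1
    funext n
    rw [hf n, pow_iter, pow_iter]
  · exact congrArg (fun A : lp K 2 →L[ℂ] lp K 2 => A x) hX.intertwines
  · refine hXd.mono ?_
    rintro _ ⟨x, rfl⟩
    exact ⟨0, x, rfl⟩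

private lemma class_c11 : ClassC11 (TT R) := by
  refine ⟨?_, adjoint (TT R), fun x y => ContinuousLinearMap.adjoint_inner_left _ _ _, ?_⟩
  · intro x hx
    obtain ⟨i, hi⟩ : ∃ i, x i ≠ 0 := by
      by_contra hc
      push Not at hc
      exact hx (lp.ext (funext hc))
    refine ⟨s i * ‖x i‖, mul_pos (R i).hs (norm_pos_iff.mpr hi), fun n => ?_⟩
    have h3 := lp.norm_apply_le_norm (p := 2) (by norm_num) ((TT R ^ n) x) i
    rw [TT_pow_apply] at h3
    rw [← pow_iter]
    exact ((R i).norm_X_ge _).trans (((R i).norm_T_pow_ge n _).trans h3)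
  · intro x hx
    obtain ⟨i, hi⟩ : ∃ i, x i ≠ 0 := by
      by_contra hc
      push Not at hc
      exact hx (lp.ext (funext hc))
    refine ⟨s i * ‖x i‖, mul_pos (R i).hs (norm_pos_iff.mpr hi), fun n => ?_⟩
    have h3 := lp.norm_apply_le_norm (p := 2) (by norm_num)
      ((ContinuousLinearMap.adjoint (TT R) ^ n) x) i
    rw [adj_TT_pow_apply] at h3
    rw [← pow_iter]
    exact ((R i).norm_adjoint_T_pow_ge n _).trans h3

end Fam3

/-- Banach limits exist -/
private lemma exists_banach : ∃ L : (ℕ → ℂ) → ℂ, IsBanachLimit L := by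
  obtain ⟨L, hL1, hL2, hL3, _⟩ := exists_banach_limit wdw
  have hB := cplx_banach hL1 hL2 hL3
  classical
  let bd : (ℕ → ℂ) → Prop := fun f => ∃ M : ℝ, ∀ n, ‖f n‖ ≤ M
  let mk : ∀ f : ℕ → ℂ, bd f → (ℕ →ᵇ ℂ) := fun f hf =>
    BoundedContinuousFunction.ofNormedAddCommGroupDiscrete f hf.choose hf.choose_spec
  have hmk : ∀ f hf n, mk f hf n = f n := fun f hf n => rfl
  let Λ : (ℕ → ℂ) → ℂ := fun f => if hf : bd f then cplx L (mk f hf) else 0
  have hΛ : ∀ (f : ℕ → ℂ) (g : ℕ →ᵇ ℂ), (∀ n, g n = f n) → Λ f = cplx L g := by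
    intro f g h
    have hf : bd f := ⟨‖g‖, fun n => by rw [← h n]; exact g.norm_coe_le_norm n⟩
    show (if hf : bd f then cplx L (mk f hf) else 0) = _
    rw [dif_pos hf]
    congr 1
    ext n
    rw [hmk, h n]
  refine ⟨Λ, ⟨?_, ?_, ?_, ?_, ?_⟩⟩
  · intro f g M hf hg
    rw [hΛ f (mk f ⟨M, hf⟩) (fun n => rfl), hΛ g (mk g ⟨M, hg⟩) (fun n => rfl),
      hΛ (fun n => f n + g n) (mk f ⟨M, hf⟩ + mk g ⟨M, hg⟩) (fun n => rfl), map_add]
  · intro a f M hf
    rw [hΛ f (mk f ⟨M, hf⟩) (fun n => rfl),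
      hΛ (fun n => a * f n) (a • mk f ⟨M, hf⟩) (fun n => rfl), map_smul, smul_eq_mul]
  · intro f M hf
    have hf' : ∀ n, ‖(f n : ℂ)‖ ≤ M := fun n => by
      rw [Complex.norm_real, Real.norm_of_nonneg (hf n).1]
      exact (hf n).2
    rw [hΛ (fun n => (f n : ℂ)) (mk (fun n => (f n : ℂ)) ⟨M, hf'⟩) (fun n => rfl)]
    have h1 := hB.nonneg (mk (fun n => (f n : ℂ)) ⟨M, hf'⟩) (fun n => by
      rw [hmk]
      exact ⟨by simpa using (hf n).1, by simp⟩)
    exact ⟨_, h1.1, Complex.ext (by simp) (by simp [h1.2])⟩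
  · rw [hΛ (fun _ => 1) (BoundedContinuousFunction.const ℕ (1 : ℂ)) (fun n => rfl)]
    exact hB.one
  · intro f M hf
    rw [hΛ f (mk f ⟨M, hf⟩) (fun n => rfl),
      hΛ (fun n => f (n + 1)) (mk (fun n => f (n + 1)) ⟨M, fun n => hf (n + 1)⟩) (fun n => rfl)]
    exact hB.shift _ _ (fun n => rfl)

/-- There is a power bounded operator `T` of class `C_11` on a Hilbert space such that for every
Banach limit `T` has a unitary asymptote, every one is singular, and `T` is not similar to it; more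
generally, `T` is not similar to any contraction. (Banach limits exist.) -/
theorem result :
    ∃ (H : Type) (_ : NormedAddCommGroup H) (_ : InnerProductSpace ℂ H) (_ : CompleteSpace H)
      (T : H →L[ℂ] H),
      PowersBoundedBy 2 T ∧ ClassC11 T ∧ (∃ L, IsBanachLimit L) ∧
      (∀ L, IsBanachLimit L → HasAsymptote L T ∧ AsymptoteSingularNotSimilar L T) ∧
      ¬ SimilarToContraction T := by
  -- the parameters
  let s : ℕ → ℝ := fun i => 1 / ((i : ℝ) + 2)
  let c : ℕ → ℝ := fun i => Real.sqrt (1 - s i ^ 2)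
  have hs0 : ∀ i, 0 < s i := fun i => by positivity
  have hs1 : ∀ i, s i ≤ 1 / 2 := by
    intro i
    apply one_div_le_one_div_of_le (by norm_num)
    have : (0 : ℝ) ≤ i := Nat.cast_nonneg i
    linarith
  have hc2 : ∀ i, c i ^ 2 = 1 - s i ^ 2 := by
    intro i
    apply Real.sq_sqrt
    have := hs0 i
    have := hs1 i
    nlinarith
  have hsc : ∀ i, s i < c i := by
    intro i
    apply Real.lt_sqrt_of_sq_lt
    have := hs0 i
    have := hs1 i
    nlinarith
  have hslim : Tendsto s atTop (𝓝 0) := by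
    have h1 : Tendsto (fun i : ℕ => (i : ℝ) + 2) atTop atTop :=
      tendsto_atTop_add_const_right _ _ tendsto_natCast_atTop_atTop
    have h2 := h1.inv_tendsto_atTop
    refine h2.congr fun i => ?_
    show ((i : ℝ) + 2)⁻¹ = 1 / ((i : ℝ) + 2)
    rw [one_div]
  have hex := fun i => exists_RSys (c i) (s i) (by rw [hc2 i]; ring) (hs0 i) (hsc i)
  choose K i1 i2 i3 R0 using hex
  have R : ∀ i, RSys (K i) (c i) (s i) := fun i => (R0 i).some
  refine ⟨lp K 2, inferInstance, inferInstance, inferInstance, TT R, norm_TT_pow_op R, class_c11 R,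
    exists_banach, ?_, ?_⟩
  · intro L hL
    refine ⟨has_asymptote R hL, ?_⟩
    intro K' _ _ _ W X hWX
    have hUA := ua_of R hL hWX
    refine ⟨fun y => ⟨?_, fun μ hμ => ?_⟩, ?_⟩
    · obtain ⟨μ, hμ⟩ := exists_spectral (opW W) (opW_unitary W) y
      exact ⟨μ, (sm_iff W y μ).mpr hμ⟩
    · obtain ⟨Z, hZn, hZW, hZs⟩ := asym_factor R (toCLM_bl hL) hUA
      obtain ⟨k, rfl⟩ := hZs y
      exact singular_of_factor R hUA.unitary hZn hZW k μ ((sm_iff W _ μ).mp hμ)
    · have h1 := no_contraction R hslim (opW W)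
        (ContinuousLinearMap.opNorm_le_bound _ (by norm_num) fun y => by
          rw [unitary_norm hUA.unitary, one_mul])
      exact h1
  · rintro ⟨K', _, _, _, C, hC, hS⟩
    exact no_contraction R hslim C hC hS

end Pool.Agent.Results.MP_c88e0f_an.NotSimilarToContraction
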